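import Mathlib
import Pool.Agent.AM.Final

set_option autoImplicit false
open Matrix
open scoped ENNReal

namespace Pool.Agent.Results.MP_becd93_ag.ExactDim

/-- The Riemann theta function of the period matrix `τ`. -/
noncomputable def theta (g : ℕ) (τ : Matrix (Fin g) (Fin g) ℂ) (w : Fin g → ℂ) : ℂ :=
  ∑' n : Fin g → ℤ,
    Complex.exp ((Real.pi : ℂ) * Complex.I *
        ((fun i => (n i : ℂ)) ⬝ᵥ (τ *ᵥ (fun i => (n i : ℂ)))) +
      2 * (Real.pi : ℂ) * Complex.I * ((fun i => (n i : ℂ)) ⬝ᵥ w))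

/-- The preimage in `ℂ^g` of the singular locus of the theta divisor. -/
def singTheta (g : ℕ) (τ : Matrix (Fin g) (Fin g) ℂ) : Set (Fin g → ℂ) :=
  {z | theta g τ z = 0 ∧ fderiv ℂ (theta g τ) z = 0}

/-- For all `g ≥ 2` and `0 ≤ k ≤ g - 2` there is a period matrix whose theta divisor has
nonempty singular locus of (complex) dimension exactly `k`. -/
theorem result (g k : ℕ) (h : k + 2 ≤ g) :
    ∃ τ : Matrix (Fin g) (Fin g) ℂ, τ.transpose = τ ∧ (τ.map Complex.im).PosDef ∧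
      (singTheta g τ).Nonempty ∧ dimH (singTheta g τ) = ((2 * k : ℕ) : ℝ≥0∞) := by
  obtain ⟨τ, h1, h2, ⟨z, hz⟩, h4⟩ := Pool.Agent.AM.all_cases g k h
  exact ⟨τ, h1, h2, ⟨z, hz⟩, h4⟩

end Pool.Agent.Results.MP_becd93_ag.ExactDim
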